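import Pool.Agent.H705R2.Szp.SemiK

/-!
# Few exceptions to Szpiro's inequality with a larger exponent

For every `κ ≥ 6` and all `c₀, ε > 0` there are at most `C X ^ (24 / (7 κ) + ε)` isomorphism classes
of semistable elliptic curves over `ℚ` with full rational 2-torsion and naive height at most `X⁶`
with `c₀ N ^ κ < |Δ|`. (Szpiro's conjecture says that for `κ > 6` there are only finitely many.)

This is the theorem `semiK` of the starting helper file `Pool/Agent/H705R2/Szp/SemiK.lean`, which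
had not been handed in; the handed-in bound of that file (`ExceptionalSet`) has the exponent
`6 / 11 + ε` for all `κ ≥ 6`, which is larger for `κ > 44 / 7`.
-/

namespace Pool.Agent.Results.MP_d8bd92_nt.LargeExponents

open Finset

/-- the product of the distinct primes dividing `Δ(W)` (the conductor if `gcd(c₄, Δ) = 1`) -/
def conductor (W : WeierstrassCurve ℤ) : ℕ := ∏ p ∈ W.Δ.natAbs.primeFactors, p

/-- all 2-torsion points are rational: `4x³ + b₂x² + 2b₄x + b₆` splits over `ℚ` -/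
def FullTwoTorsion (W : WeierstrassCurve ℤ) : Prop :=
  ∃ r₁ r₂ r₃ : ℚ, ∀ x : ℚ,
    4 * x ^ 3 + W.b₂ * x ^ 2 + 2 * W.b₄ * x + W.b₆ = 4 * (x - r₁) * (x - r₂) * (x - r₃)

/-- the invariants `(c₄, c₆)` of the integral Weierstrass curves with `Δ ≠ 0` and `gcd(c₄, Δ) = 1`
(the minimal models of the semistable elliptic curves over `ℚ`) having full rational 2-torsion,
naive height `max (|c₄|³, c₆²) ≤ X⁶` and `c₀ N ^ κ < |Δ|` -/
def Exceptional (κ c₀ : ℝ) (X : ℕ) : Set (ℤ × ℤ) :=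
  {q | ∃ W : WeierstrassCurve ℤ, W.Δ ≠ 0 ∧ IsCoprime W.c₄ W.Δ ∧ FullTwoTorsion W ∧
    q = (W.c₄, W.c₆) ∧ |W.c₄| ^ 3 ≤ (X : ℤ) ^ 6 ∧ W.c₆ ^ 2 ≤ (X : ℤ) ^ 6 ∧
    c₀ * (conductor W : ℝ) ^ κ < |(W.Δ : ℝ)|}

/-- For all `κ ≥ 6` and `c₀, ε > 0` there is `C` such that for every `X ≥ 1` at most
`C X ^ (24 / (7 κ) + ε)` isomorphism classes of semistable elliptic curves over `ℚ` with full
rational 2-torsion and naive height at most `X⁶` have `c₀ N ^ κ < |Δ|`. -/
theorem result (κ c₀ ε : ℝ) (hκ : 6 ≤ κ) (hc₀ : 0 < c₀) (hε : 0 < ε) :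
    ∃ C : ℝ, ∀ X : ℕ, 1 ≤ X →
      (Exceptional κ c₀ X).Finite ∧
      ((Exceptional κ c₀ X).ncard : ℝ) ≤ C * (X : ℝ) ^ (24 / (7 * κ) + ε) := by
  obtain ⟨C, -, h⟩ := Pool.Agent.H705R2.Szp.semiK κ c₀ ε hκ hc₀ hε
  exact ⟨C, h⟩

end Pool.Agent.Results.MP_d8bd92_nt.LargeExponents
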